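import Pool.Agent.Run7.h688.TG.NSQ

/-!
# Project TG (helper784), piece NSQ2

by helper688
-/

set_option autoImplicit false
set_option linter.all false

open Polynomial
open scoped Classical

namespace Run7.h688.TG

open Run7.h784.TG
open Pool.Agent.N352.PJ (IsGen Crd dsc)
open Run7.h333.TS (ex)

/-- The characters of the symmetric group. -/
theorem charac {Γ Ω : Type} [Group Γ] [Fintype Ω] [DecidableEq Ω] (pm : Γ →* Equiv.Perm Ω)
    (hpm : Function.Surjective pm) (e₀ : Γ →* ℤˣ) (h : ∀ τ, pm τ = 1 → e₀ τ = 1) :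
    (∀ τ, e₀ τ = 1) ∨ ∀ τ, e₀ τ = Equiv.Perm.sign (pm τ) := by
  have hk : pm.ker ≤ e₀.ker := by
    intro τ hτ
    exact h τ hτ
  obtain ⟨E, hE⟩ : ∃ E : Equiv.Perm Ω →* ℤˣ, ∀ τ, E (pm τ) = e₀ τ := by
    refine ⟨pm.liftOfSurjective hpm ⟨e₀, hk⟩, fun τ => ?_⟩
    exact MonoidHom.liftOfRightInverse_comp_apply _ _ _ ⟨e₀, hk⟩ τ
  by_cases hs : Function.Surjective E
  · right
    intro τ
    rw [← hE, Equiv.Perm.eq_sign_of_surjective_hom hs]
  · left
    intro τ
    by_contra hne
    apply hs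
    intro c
    rcases Int.units_eq_one_or c with rfl | rfl
    · exact ⟨1, map_one E⟩
    · refine ⟨pm τ, ?_⟩
      rw [hE]
      rcases Int.units_eq_one_or (e₀ τ) with h1 | h1
      · exact absurd h1 hne
      · exact h1

section core2

variable {k k' K' W : Type} [Field k] [Field k'] [Algebra k k'] [Field K']
  [Algebra k'[X] K'] [IsFractionRing k'[X] K'] [Field W] [Algebra K' W] [IsAlgClosed W]
  [IsAlgClosure K' W]

omit [IsFractionRing k'[X] K'] [IsAlgClosure K' W] in
theorem exists_delta [IsAlgClosed k'] {g N : ℕ} {r : k[X]} {f : k[X][X]} (hf : Fm g N r f)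
    [Fintype (Om k' K' W f)] (hs : (f.map (big k k' K' W)).Separable) :
    ∃ δ : W, δ ^ 2 = big k k' K' W (dsc g f) ∧ ∀ τ : W ≃ₐ[K'] W,
      τ δ = ((Equiv.Perm.sign (pm k' K' W f τ) : ℤ) : W) * δ := by
  have hm : f.Monic := hf.fam.ht.mon
  have hdeg : f.natDegree = 2 * g + 1 := hf.fam.ht.deg
  obtain ⟨n, hn⟩ : ∃ n, n = 2 * g + 1 := ⟨_, rfl⟩
  have hcard : Fintype.card (Om k' K' W f) = n := by rw [card_Om hm hs, hdeg, hn]
  have en : Om k' K' W f ≃ Fin n := Fintype.equivFinOfCardEq hcard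
  obtain ⟨v, hv⟩ : ∃ v : Fin n → W, v = fun i => ((en.symm i : Om k' K' W f) : W) := ⟨_, rfl⟩
  obtain ⟨M, hM⟩ : ∃ M : Matrix (Om k' K' W f) (Om k' K' W f) W,
    M = (Matrix.vandermonde v).submatrix en en := ⟨_, rfl⟩
  have hMdet : M.det = (Matrix.vandermonde v).det := by
    rw [hM, Matrix.det_submatrix_equiv_self]
  have hMτ : ∀ τ : W ≃ₐ[K'] W, τ M.det =
      ((Equiv.Perm.sign (pm k' K' W f τ) : ℤ) : W) * M.det := by
    intro τ
    have h1 : τ M.det = (M.map τ).det := by
      have := RingHom.map_det (τ : W →+* W) M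
      exact this
    have h2 : M.map τ = M.submatrix (pm k' K' W f τ) id := by
      ext x y
      rw [hM, hv, Matrix.map_apply, Matrix.submatrix_apply, Matrix.submatrix_apply,
        Matrix.submatrix_apply, Matrix.vandermonde_apply, Matrix.vandermonde_apply, map_pow]
      simp only [Equiv.symm_apply_apply, id]
      rw [pm_apply]
    rw [h1, h2, Matrix.det_permute]
  -- the square
  have hF : f.map (big k k' K' W) = Lagrange.nodal Finset.univ v := by
    rw [prod_all hm hs, Lagrange.nodal]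
    refine Fintype.prod_equiv en _ _ fun x => ?_
    rw [hv]
    simp
  have hres : big k k' K' W (dsc g f) = ∏ i : Fin n, ∏ j ∈ ({i}ᶜ : Finset (Fin n)), (v i - v j) := by
    have hFdeg : (f.map (big k k' K' W)).natDegree = 2 * g + 1 := by
      rw [hm.natDegree_map, hdeg]
    have h1 := resultant_eq_prod_eval (f.map (big k k' K' W))
      (derivative (f.map (big k k' K' W))) (2 * g) (by
        refine (natDegree_derivative_le _).trans ?_
        rw [hFdeg]
        omega) (IsAlgClosed.splits _)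
    rw [hFdeg, (hm.map _).leadingCoeff, one_pow, one_mul, derivative_map, resultant_map_map] at h1
    have h2 : (f.map (big k k' K' W)).roots = (Finset.univ : Finset (Fin n)).val.map v := by
      rw [hF, Lagrange.nodal, Finset.prod_eq_multiset_prod]
      have := roots_multiset_prod_X_sub_C ((Finset.univ : Finset (Fin n)).val.map v)
      rw [Multiset.map_map] at this
      exact this
    rw [h2, Multiset.map_map, ← derivative_map] at h1
    unfold dsc
    rw [h1]
    change ∏ i : Fin n, (derivative (f.map (big k k' K' W))).eval (v i) = _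
    refine Finset.prod_congr rfl fun i _ => ?_
    rw [hF, Lagrange.eval_nodal_derivative_eval_node_eq (Finset.mem_univ i), Lagrange.eval_nodal]
    refine Finset.prod_congr ?_ fun _ _ => rfl
    ext j
    simp
  obtain ⟨ε, hε⟩ : ∃ ε : ℤ, ε = ∏ i : Fin n, ∏ j ∈ Finset.Ioi i, (-1 : ℤ) := ⟨_, rfl⟩
  have hε2 : ε * ε = 1 := by
    rw [hε, ← Finset.prod_mul_distrib]
    refine Finset.prod_eq_one fun i _ => ?_
    rw [← Finset.prod_mul_distrib]
    exact Finset.prod_eq_one fun j _ => by norm_num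
  have hsq : big k k' K' W (dsc g f) = (ε : W) * M.det ^ 2 := by
    rw [hres, hMdet, Matrix.det_vandermonde, hε]
    have h1 := Finset.prod_prod_Ioi_mul_eq_prod_prod_off_diag (α := Fin n)
      (fun a b => v b - v a)
    rw [← h1]
    push_cast
    rw [← Finset.prod_pow, ← Finset.prod_mul_distrib]
    refine Finset.prod_congr rfl fun i _ => ?_
    rw [← Finset.prod_pow, ← Finset.prod_mul_distrib]
    refine Finset.prod_congr rfl fun j _ => ?_
    ring
  obtain ⟨ι, hι⟩ := IsAlgClosed.exists_pow_nat_eq ((ε : k')) (n := 2) two_pos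
  refine ⟨psi K' W k' (C ι) * M.det, ?_, ?_⟩
  · rw [mul_pow, ← map_pow, ← C_pow, hι, hsq]
    congr 1
    rw [show (C ((ε : ℤ) : k') : k'[X]) = ((ε : ℤ) : k'[X]) from by simp, map_intCast]
  · intro τ
    rw [map_mul, tau_psi, hMτ]
    ring

/-- A polynomial of positive degree without multiple factors is not a square in `k'(X)`. -/
theorem not_sq [Finite k] (h2 : (2 : W) ≠ 0) {B : k[X]} (hB : B.Separable)
    (hd : 0 < B.natDegree) {γ : W} (hγ : γ ^ 2 = big k k' K' W B)
    (hfix : ∀ τ : W ≃ₐ[K'] W, τ γ = γ) : False := by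
  obtain ⟨u, w, hw, hu⟩ := exists_num (k' := k') h2 (0 : W) (β := γ)
    (P := C (B.map (algebraMap k k'))) (w₀ := 1) (by
      rw [eval₂_one]
      exact one_ne_zero) (by
      rw [eval₂_one, one_mul, hγ, eval₂_C, big_eq]) (fun τ _ => hfix τ)
  rw [eval₂_at_zero] at hu
  have hψi : Function.Injective (psi K' W k') := psi_inj
  have h1 : w ^ 2 * B.map (algebraMap k k') = (u.coeff 0) ^ 2 := by
    apply hψi
    rw [map_pow, ← hu, mul_pow, hγ, big_eq, map_mul, map_pow]
  have h3 : w ∣ u.coeff 0 := (IsIntegrallyClosed.pow_dvd_pow_iff (n := 2) two_ne_zero).1 ⟨_, h1.symm⟩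
  obtain ⟨v, hv⟩ := h3
  have h4 : B.map (algebraMap k k') = v * v := by
    rw [hv, mul_pow] at h1
    have := mul_left_cancel₀ (pow_ne_zero 2 hw) h1
    rw [this, sq]
  have hsf : Squarefree (B.map (algebraMap k k')) := (hB.map).squarefree
  have h5 : IsUnit v := hsf v (h4 ▸ dvd_rfl)
  have h6 : IsUnit (B.map (algebraMap k k')) := by
    rw [h4]
    exact h5.mul h5
  have h7 := natDegree_eq_zero_of_isUnit h6
  rw [natDegree_map] at h7
  omega

theorem nsq2_core [Finite k] [IsAlgClosed k'] {g N : ℕ} {r : k[X]} {f : k[X][X]} (hf : Fm g N r f)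
    (hF : Function.Surjective (pm k' K' W f)) {l : ℕ} {c : Fin l → ℕ}
    {H : k[X][X]} {D : k[X]} {A : Fin l → ℕ → k[X][X]}
    (hMd : IsMd f c H D A) {b : k[X]} (hb : (b = dsc g f ∧ ∃ i, 2 ≤ c i) ∨
      (Squarefree b ∧ IsCoprime b (dsc g f) ∧ 0 < b.natDegree))
    (hGS : Run7.h875.TS.GSq k' H (C b)) : False := by
  obtain ⟨u, w, hw, hu⟩ := hGS
  have hφi : Function.Injective (big k k' K' W) := big_inj
  have hψi : Function.Injective (psi K' W k') := psi_inj
  have h2k : (2 : k) ≠ 0 := hf.two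
  have h2 : (2 : W) ≠ 0 := by
    have : (big k k' K' W) (C 2) ≠ 0 := by
      rw [Ne, map_eq_zero_iff _ hφi, C_eq_zero]
      exact h2k
    rwa [show (C (2 : k) : k[X]) = 2 from rfl, map_ofNat] at this
  have hb0 : b ≠ 0 := by
    rcases hb with ⟨h, -⟩ | ⟨h, -, -⟩
    · rw [h]
      exact hf.fam.sq.ne_zero
    · exact h.ne_zero
  have hd0 : (big k k' K' W) (dsc g f) ≠ 0 := by
    rw [Ne, map_eq_zero_iff _ hφi]
    exact hf.fam.sq.ne_zero
  have hm : f.Monic := hf.fam.ht.mon
  have hs : (f.map (big k k' K' W)).Separable := sep_big hf _ hd0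
  haveI : Finite (Om k' K' W f) := finite_Om hm
  letI : Fintype (Om k' K' W f) := Fintype.ofFinite _
  obtain ⟨y, hy⟩ : ∃ y, eval₂ (big k k' K' W) y H = 0 := by
    obtain ⟨y, hy⟩ := IsAlgClosed.exists_root (H.map (big k k' K' W)) (by
      rw [hMd.pc.monic.degree_map, degree_eq_natDegree hMd.pc.monic.ne_zero]
      exact_mod_cast hMd.pc.pos.ne')
    exact ⟨y, by rw [← eval_map]; exact hy⟩
  have hD : (big k k' K' W) D ≠ 0 := by
    rw [Ne, map_eq_zero_iff _ hφi]
    exact hMd.pc.ne
  have hbij := hMd.bij W (big k k' K' W) hD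
  have hfac := hbij.mapsTo hy
  obtain ⟨β₀, hβ₀⟩ := IsAlgClosed.exists_pow_nat_eq ((big k k' K' W) b) (n := 2) two_pos
  have hβ₀0 : β₀ ≠ 0 := by
    intro h0
    apply hb0
    have : (big k k' K' W) b = 0 := by
      rw [← hβ₀, h0]
      ring
    rwa [map_eq_zero_iff _ hφi] at this
  have hfixβ : ∀ τ : W ≃ₐ[K'] W, τ y = y → τ β₀ = β₀ := by
    intro τ hτy
    have h1 : (psi K' W k' w * β₀) ^ 2 = (eval₂ (psi K' W k') y u) ^ 2 := by
      have h3 : eval₂ (psi K' W k') y (C (w ^ 2) * (C b).map (mapRingHom (algebraMap k k')) -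
          u ^ 2) = 0 := by
        obtain ⟨V, hV⟩ := hu
        rw [hV, eval₂_mul, eval₂_map, ← big_eq', hy, zero_mul]
      rw [eval₂_sub, eval₂_mul, eval₂_C, eval₂_map, ← big_eq', eval₂_C, eval₂_pow, map_pow] at h3
      rw [mul_pow, hβ₀]
      linear_combination h3
    have hne : psi K' W k' w ≠ 0 := by
      rw [Ne, map_eq_zero_iff _ hψi]
      exact hw
    have h4 : τ (psi K' W k' w * β₀) = psi K' W k' w * β₀ := by
      rcases sq_eq_sq_iff_eq_or_eq_neg.1 h1 with h | h
      · rw [h, tau_eval₂', hτy]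
      · rw [h, map_neg, tau_eval₂', hτy]
    rw [map_mul, tau_psi] at h4
    exact mul_left_cancel₀ hne h4
  obtain ⟨δ, hδ, hδτ⟩ := exists_delta (k' := k') (K' := K') (W := W) hf hs
  have hδ0 : δ ≠ 0 := by
    rintro rfl
    apply hd0
    rw [← hδ]
    ring
  rcases hb with ⟨hbd, i₀, hi₀⟩ | ⟨hsf, hcop, hbdeg⟩
  · -- two roots of the same colour
    have hfd : mdl (big k k' K' W) c D A y i₀ ∣ f.map (big k k' K' W) := by
      rw [← hfac.2]
      exact Finset.dvd_prod_of_mem _ (Finset.mem_univ i₀)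
    have h1 := prod_filter hm hs (hfac.1 i₀).1 hfd
    obtain ⟨S, hS⟩ : ∃ S, S = (Finset.univ : Finset (Om k' K' W f)).filter
      (fun x : Om k' K' W f => (mdl (big k k' K' W) c D A y i₀).eval (x : W) = 0) := ⟨_, rfl⟩
    rw [← hS] at h1
    have hScard : 1 < S.card := by
      have h3 := (hfac.1 i₀).2
      rw [h1, natDegree_prod_of_monic _ _ (fun x _ => monic_X_sub_C _)] at h3
      simp at h3
      omega
    obtain ⟨x, hx, x', hx', hxx'⟩ := Finset.one_lt_card.1 hScard
    obtain ⟨τ, hτ⟩ := hF (Equiv.swap x x')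
    rw [hS, Finset.mem_filter] at hx hx'
    have hother : ∀ i, i ≠ i₀ → ∀ z : Om k' K' W f,
        (mdl (big k k' K' W) c D A y i₀).eval (z : W) = 0 →
        (mdl (big k k' K' W) c D A y i).eval (z : W) ≠ 0 := by
      intro i hi z hz0 hz1
      have h3 : mdl (big k k' K' W) c D A y i * mdl (big k k' K' W) c D A y i₀ ∣
          f.map (big k k' K' W) := by
        rw [← hfac.2, ← Finset.mul_prod_erase Finset.univ _ (Finset.mem_univ i)]
        exact mul_dvd_mul_left _ (Finset.dvd_prod_of_mem _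
          (Finset.mem_erase.2 ⟨hi.symm, Finset.mem_univ i₀⟩))
      obtain ⟨a', b', hab⟩ := (hs.of_dvd h3).isCoprime
      have h4 := congrArg (eval (z : W)) hab
      rw [eval_add, eval_mul, eval_mul, hz0, hz1] at h4
      simp at h4
    have hτy : τ y = y := by
      refine fixY hm hs hbij hy τ fun i v hv => ?_
      rw [hτ]
      by_cases hi : i = i₀
      · subst hi
        by_cases hvx : v = x
        · rw [hvx, Equiv.swap_apply_left]
          exact hx'.2
        · by_cases hvx' : v = x'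
          · rw [hvx', Equiv.swap_apply_right]
            exact hx.2
          · rw [Equiv.swap_apply_of_ne_of_ne hvx hvx']
            exact hv
      · have hvx : v ≠ x := by
          rintro rfl
          exact hother i hi _ hx.2 hv
        have hvx' : v ≠ x' := by
          rintro rfl
          exact hother i hi _ hx'.2 hv
        rw [Equiv.swap_apply_of_ne_of_ne hvx hvx']
        exact hv
    have h3 := hfixβ τ hτy
    have h4 : β₀ ^ 2 = δ ^ 2 := by rw [hβ₀, hδ, hbd]
    have h5 : τ δ = -δ := by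
      rw [hδτ, hτ, Equiv.Perm.sign_swap hxx']
      push_cast
      ring
    have h6 : 2 * β₀ = 0 := by
      rcases sq_eq_sq_iff_eq_or_eq_neg.1 h4 with h | h
      · rw [h] at h3 ⊢
        rw [h5] at h3
        linear_combination -h3
      · rw [h] at h3 ⊢
        rw [map_neg, h5] at h3
        linear_combination -h3
    exact mul_ne_zero h2 hβ₀0 h6
  · -- characters of the symmetric group
    have hexs : ∀ τ : W ≃ₐ[K'] W, ∃ e : ℤˣ, τ β₀ = ((e : ℤ) : W) * β₀ := fun τ =>
      exists_sign τ (by rw [← map_pow, hβ₀, tau_big])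
    choose e₀ he₀ using hexs
    have hcast : ∀ u : ℤˣ, ∀ τ : W ≃ₐ[K'] W, τ ((u : ℤ) : W) = ((u : ℤ) : W) := by
      intro u τ
      exact map_intCast τ _
    have hmul : ∀ τ ρ, e₀ (τ * ρ) = e₀ τ * e₀ ρ := by
      intro τ ρ
      refine unit_cancel h2 hβ₀0 ?_
      have h1 := he₀ (τ * ρ)
      rw [AlgEquiv.mul_apply, he₀ ρ, map_mul, hcast, he₀ τ] at h1
      rw [← h1]
      push_cast
      ring
    have hchar := charac (pm k' K' W f) hF (MonoidHom.mk' e₀ hmul) (fun τ hτ => by
      change e₀ τ = 1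
      have hτy : τ y = y := by
        refine fixY hm hs hbij hy τ fun i x hx => ?_
        rw [hτ]
        exact hx
      have h1 := hfixβ τ hτy
      refine unit_cancel h2 hβ₀0 ?_
      rw [← he₀ τ, h1]
      push_cast
      ring)
    have hbs : b.Separable := PerfectField.separable_iff_squarefree.2 hsf
    have hds : (dsc g f).Separable := PerfectField.separable_iff_squarefree.2 hf.fam.sq
    rcases hchar with h1 | h1
    · refine not_sq (k' := k') h2 hbs hbdeg hβ₀ fun τ => ?_
      have h3 : e₀ τ = 1 := h1 τ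
      rw [he₀, h3]
      push_cast
      ring
    · refine not_sq (k' := k') (B := b * dsc g f) h2 (hbs.mul hds hcop) ?_
        (γ := β₀ * δ) (by rw [mul_pow, hβ₀, hδ, map_mul]) fun τ => ?_
      · rw [natDegree_mul hb0 hf.fam.sq.ne_zero]
        omega
      · have h3 : e₀ τ = Equiv.Perm.sign (pm k' K' W f τ) := h1 τ
        rw [map_mul, he₀, hδτ, h3]
        have h4 : ((Equiv.Perm.sign (pm k' K' W f τ) : ℤ) : W) *
            ((Equiv.Perm.sign (pm k' K' W f τ) : ℤ) : W) = 1 := by
          rcases Int.units_eq_one_or (Equiv.Perm.sign (pm k' K' W f τ)) with h | h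
          · rw [h]; push_cast; ring
          · rw [h]; push_cast; ring
        linear_combination (β₀ * δ) * h4

end core2

theorem T_NSQ2 : P_NSQ2 := by
  intro k _ _ g N r f hf hF l c hc hsum H D A hMd b hb k' _ _ _ _ hGS
  exact nsq2_core (k' := k') (K' := FractionRing k'[X])
    (W := AlgebraicClosure (FractionRing k'[X])) hf
    (surj_pm hF k' (FractionRing k'[X]) (AlgebraicClosure (FractionRing k'[X]))) hMd hb hGS

end Run7.h688.TG
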