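import Pool.Agent.Run7.h688.TG.NC

/-!
# Project TG (helper784), piece NSQ

by helper688
-/

set_option autoImplicit false
set_option linter.all false

open Polynomial
open scoped Classical

namespace Run7.h688.TG

open Run7.h784.TG
open Pool.Agent.N352.PJ (IsGen Crd dsc)

theorem surj_pm {k : Type} [Field k] {f : k[X][X]} (hF : Full f) (k' : Type) [Field k']
    [IsAlgClosed k'] [Algebra k k'] [Algebra.IsAlgebraic k k'] (K' W : Type) [Field K']
    [Algebra k'[X] K'] [IsFractionRing k'[X] K'] [Field W] [Algebra K' W] [IsAlgClosure K' W] :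
    Function.Surjective (pm k' K' W f) := by
  intro σ
  obtain ⟨τ, hτ⟩ := hF k' K' W σ
  exact ⟨τ, Equiv.ext fun x => Subtype.ext (hτ x)⟩

theorem T_NSQ : P_NSQ := by
  intro k _ _ g N r f hf hF l c hc hsum H D A hMd B hB hBe K L _ _ _ _ _ _ _ θ hθ α z hα hsq hns
    hz b G e hb hG k' _ _ _ _ hGS
  haveI : Fintype k := Fintype.ofFinite k
  haveI : FiniteDimensional K L := Module.Finite.of_basis hθ.basis
  have hd : dsc g f ≠ 0 := hf.fam.sq.ne_zero
  obtain ⟨nα, hnα, hn⟩ := nrm_big hθ hd hz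
  have hN0 : Algebra.norm K α ≠ 0 := Algebra.norm_ne_zero_iff.2 hα
  have hn0 : nα ≠ 0 := by
    rintro rfl
    rw [map_zero] at hnα
    exact hN0 hnα.symm
  obtain ⟨ν, hν⟩ := hsq
  obtain ⟨p, q, hq, hpq⟩ := IsFractionRing.div_surjective (A := k[X]) ν
  have hq0 : q ≠ 0 := nonZeroDivisors.ne_zero hq
  have hqK : algebraMap k[X] K q ≠ 0 := by
    rwa [Ne, IsFractionRing.to_map_eq_zero_iff (R := k[X])]
  have hpq' : q ^ 2 * nα = p ^ 2 := by
    apply IsFractionRing.injective k[X] K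
    rw [map_mul, map_pow, map_pow, hnα, hν, ← hpq]
    field_simp
  obtain ⟨hGf, hI⟩ := nsq_core (k' := k') (K' := FractionRing k'[X])
    (W := AlgebraicClosure (FractionRing k'[X])) hf
    (surj_pm hF k' (FractionRing k'[X]) (AlgebraicClosure (FractionRing k'[X]))) hc hsum hMd hB hBe
    (hn _) hn0 hq0 hpq' hb (hG _) hGS
  obtain ⟨c₁, W, U, hc₁, hW, V, hV⟩ := gsq_desc (k' := k') hf.two hf.fam.ht.mon hI hGf
  have hinj : Function.Injective (algebraMap k[X] L) := by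
    rw [IsScalarTower.algebraMap_eq k[X] K L]
    exact (algebraMap K L).injective.comp (IsFractionRing.injective k[X] K)
  have h3 := congrArg (Polynomial.eval₂ (algebraMap k[X] L) θ) hV
  rw [eval₂_mul, hθ.root, zero_mul, eval₂_sub, eval₂_mul, eval₂_pow, eval₂_C, map_mul,
    map_pow] at h3
  have h4 : (zq z).eval₂ (algebraMap k[X] L) θ = α := by
    rw [hz]
    unfold zq
    rw [eval₂_finset_sum]
    refine Finset.sum_congr rfl fun i _ => ?_
    rw [eval₂_mul, eval₂_C, eval₂_pow, eval₂_X]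
  rw [h4] at h3
  obtain ⟨c₀, hc₀⟩ : ∃ c₀, c₀ = algebraMap k[X] K (C c₁) := ⟨_, rfl⟩
  obtain ⟨w₀, hw₀⟩ : ∃ w₀, w₀ = algebraMap k[X] K W := ⟨_, rfl⟩
  obtain ⟨u₀, hu₀⟩ : ∃ u₀, u₀ = U.eval₂ (algebraMap k[X] L) θ := ⟨_, rfl⟩
  have e1 : algebraMap k[X] L (C c₁) = algebraMap K L c₀ := by
    rw [hc₀, ← IsScalarTower.algebraMap_apply]
  have e2 : algebraMap k[X] L W = algebraMap K L w₀ := by
    rw [hw₀, ← IsScalarTower.algebraMap_apply]
  rw [e1, e2, ← hu₀] at h3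
  have hc₀0 : c₀ ≠ 0 := by
    rw [hc₀, Ne, IsFractionRing.to_map_eq_zero_iff (R := k[X]), C_eq_zero]
    exact hc₁
  have hw₀0 : w₀ ≠ 0 := by
    rwa [hw₀, Ne, IsFractionRing.to_map_eq_zero_iff (R := k[X])]
  have hν0 : ν ≠ 0 := by
    rintro rfl
    rw [mul_zero] at hν
    exact hN0 hν
  have h5 : algebraMap K L c₀ * algebraMap K L w₀ ^ 2 * α = u₀ ^ 2 := by
    linear_combination h3
  have h6 := congrArg (Algebra.norm K) h5
  rw [map_mul, map_mul, map_pow, map_pow, Algebra.norm_algebraMap, Algebra.norm_algebraMap,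
    hθ.rank, hν] at h6
  obtain ⟨η, hη⟩ : ∃ η, η = Algebra.norm K u₀ / (w₀ ^ (2 * g + 1) * ν * c₀ ^ g) := ⟨_, rfl⟩
  have h7 : c₀ = η ^ 2 := by
    rw [hη, div_pow, ← h6, eq_div_iff (pow_ne_zero 2 (mul_ne_zero (mul_ne_zero
      (pow_ne_zero _ hw₀0) hν0) (pow_ne_zero _ hc₀0)))]
    ring
  have hη0 : algebraMap K L η ≠ 0 := by
    rw [Ne, map_eq_zero]
    rintro rfl
    rw [h7] at hc₀0
    simp at hc₀0
  have hwL : algebraMap K L w₀ ≠ 0 := by
    rwa [Ne, map_eq_zero]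
  apply hns
  refine ⟨u₀ / (algebraMap K L η * algebraMap K L w₀), ?_⟩
  rw [h7, map_pow] at h5
  field_simp
  linear_combination h5

end Run7.h688.TG
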