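import Mathlib

/-!
# Project TG (helper784), pieces NSQ and NSQ2: characters and cocycles of the symmetric group

by helper688
-/

set_option autoImplicit false

open scoped Classical

namespace Run7.h688.TG

section coc

variable {Γ Ω : Type} [Group Γ] [Fintype Ω] (pm : Γ →* Equiv.Perm Ω)

theorem units_odd {c : ℤˣ} {n : ℕ} (hn : Odd n) (h : c ^ n = 1) : c = 1 := by
  rcases Int.units_eq_one_or c with h1 | h1
  · exact h1
  · rw [h1, hn.neg_one_pow] at h
    rw [h1]
    exact h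

omit [Fintype Ω] in
theorem e_one {e : Γ → Ω → ℤˣ} (he : ∀ τ ρ x, e (τ * ρ) x = e ρ x * e τ (pm ρ x)) (x : Ω) :
    e 1 x = 1 := by
  have h := he 1 1 x
  rw [one_mul, map_one, Equiv.Perm.one_apply] at h
  exact (mul_eq_left.1 h.symm)

omit [Fintype Ω] in
theorem e_conj {e : Γ → Ω → ℤˣ} (he : ∀ τ ρ x, e (τ * ρ) x = e ρ x * e τ (pm ρ x)) (τ ρ : Γ)
    (x : Ω) (hx : pm τ x = x) : e (ρ * τ * ρ⁻¹) (pm ρ x) = e τ x := by
  have h1 := he (ρ * τ) ρ⁻¹ (pm ρ x)
  have h2 := he ρ τ x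
  have h3 := he ρ⁻¹ ρ x
  rw [inv_mul_cancel, e_one pm he] at h3
  rw [map_inv, show (pm ρ)⁻¹ (pm ρ x) = x from (pm ρ).symm_apply_apply x] at h1
  rw [h1, h2, hx]
  calc e ρ⁻¹ (pm ρ x) * (e τ x * e ρ x) = e τ x * (e ρ x * e ρ⁻¹ (pm ρ x)) := by
        rw [mul_comm (e ρ⁻¹ (pm ρ x)), mul_assoc]
    _ = e τ x := by rw [← h3, mul_one]

theorem cocyc (hpm : Function.Surjective pm) {e : Γ → Ω → ℤˣ}
    (he : ∀ τ ρ x, e (τ * ρ) x = e ρ x * e τ (pm ρ x))
    (hprod : ∀ τ, ∏ x, e τ x = 1) (hodd : Odd (Fintype.card Ω))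
    {s : Finset Ω} (hs : s.Nonempty) (hs' : ∃ j, j ∉ s) {e₀ : Γ → ℤˣ}
    (he₀ : ∀ τ ρ, e₀ (τ * ρ) = e₀ τ * e₀ ρ)
    (hγ : ∀ τ, pm τ = 1 → e₀ τ * ∏ x ∈ s, e τ x = 1) : ∀ x τ, pm τ x = x → e τ x = 1 := by
  have he₀1 : e₀ 1 = 1 := by
    have := he₀ 1 1
    rw [one_mul] at this
    exact (mul_eq_left.1 this.symm)
  -- the kernel acts trivially
  have step2 : ∀ τ, pm τ = 1 → ∀ x, e τ x = 1 := by
    intro τ hτ
    have hconj : ∀ π : Equiv.Perm Ω, e₀ τ * ∏ x ∈ s, e τ (π x) = 1 := by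
      intro π
      obtain ⟨ρ, hρ⟩ := hpm π⁻¹
      have h1 : pm (ρ * τ * ρ⁻¹) = 1 := by
        rw [map_mul, map_mul, hτ, mul_one, map_inv, mul_inv_cancel]
      have h2 := hγ _ h1
      have h3 : e₀ (ρ * τ * ρ⁻¹) = e₀ τ := by
        have h4 := he₀ ρ ρ⁻¹
        rw [mul_inv_cancel, he₀1] at h4
        rw [he₀, he₀, mul_comm (e₀ ρ) (e₀ τ), mul_assoc, ← h4, mul_one]
      rw [h3] at h2
      rw [← h2]
      congr 1
      refine Finset.prod_congr rfl fun x _ => ?_
      have h5 := e_conj pm he τ ρ (π x) (by rw [hτ, Equiv.Perm.one_apply])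
      rw [hρ, show π⁻¹ (π x) = x from π.symm_apply_apply x] at h5
      exact h5.symm
    have hij : ∀ i ∈ s, ∀ j, j ∉ s → e τ i = e τ j := by
      intro i hi j hj
      have h1 := hconj 1
      have h2 := hconj (Equiv.swap i j)
      simp only [Equiv.Perm.one_apply] at h1
      rw [← Finset.mul_prod_erase s _ hi] at h1 h2
      rw [Equiv.swap_apply_left] at h2
      have h3 : ∏ x ∈ s.erase i, e τ (Equiv.swap i j x) = ∏ x ∈ s.erase i, e τ x := by
        refine Finset.prod_congr rfl fun x hx => ?_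
        rw [Equiv.swap_apply_of_ne_of_ne (Finset.ne_of_mem_erase hx)]
        rintro rfl
        exact hj (Finset.mem_of_mem_erase hx)
      rw [h3] at h2
      have h4 := h1.trans h2.symm
      exact mul_right_cancel (mul_left_cancel h4)
    obtain ⟨i₀, hi₀⟩ := hs
    obtain ⟨j₀, hj₀⟩ := hs'
    have hall : ∀ x, e τ x = e τ i₀ := by
      intro x
      by_cases hx : x ∈ s
      · rw [hij x hx j₀ hj₀, hij i₀ hi₀ j₀ hj₀]
      · exact (hij i₀ hi₀ x hx).symm
    have h1 := hprod τ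
    rw [Finset.prod_congr rfl fun x _ => hall x, Finset.prod_const, Finset.card_univ] at h1
    intro x
    rw [hall x]
    exact units_odd hodd h1
  have step3 : ∀ τ τ', pm τ = pm τ' → ∀ x, e τ x = e τ' x := by
    intro τ τ' h x
    have h1 : pm (τ'⁻¹ * τ) = 1 := by
      rw [map_mul, map_inv, h, inv_mul_cancel]
    have h2 := he τ' (τ'⁻¹ * τ) x
    rw [mul_inv_cancel_left, step2 _ h1, one_mul, h1, Equiv.Perm.one_apply] at h2
    exact h2
  have step4 : ∀ i j : Ω, i ≠ j → ∀ τ, pm τ = Equiv.swap i j → ∀ x, x ≠ i → x ≠ j →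
      e τ x = 1 := by
    intro i j hij τ hτ x hxi hxj
    have hfix : ∀ y, y ≠ i → y ≠ j → pm τ y = y := by
      intro y hyi hyj
      rw [hτ]
      exact Equiv.swap_apply_of_ne_of_ne hyi hyj
    have hsame : ∀ y, y ≠ i → y ≠ j → e τ y = e τ x := by
      intro y hyi hyj
      obtain ⟨ρ, hρ⟩ := hpm (Equiv.swap x y)
      have h1 := e_conj pm he τ ρ x (hfix x hxi hxj)
      rw [hρ, Equiv.swap_apply_left] at h1
      rw [← h1]
      refine step3 _ _ ?_ y
      rw [map_mul, map_mul, map_inv, hρ, hτ]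
      have h2 : Equiv.swap x y * Equiv.swap i j * (Equiv.swap x y)⁻¹ =
          Equiv.swap (Equiv.swap x y i) (Equiv.swap x y j) :=
        (Equiv.swap_apply_apply (Equiv.swap x y) i j).symm
      rw [h2, Equiv.swap_apply_of_ne_of_ne hxi.symm hyi.symm,
        Equiv.swap_apply_of_ne_of_ne hxj.symm hyj.symm]
    have hee : e τ i * e τ j = 1 := by
      have h1 : pm (τ * τ) = 1 := by
        rw [map_mul, hτ, Equiv.swap_mul_self]
      have h2 := he τ τ i
      rw [step2 _ h1, hτ, Equiv.swap_apply_left] at h2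
      exact h2.symm
    have h1 := hprod τ
    rw [← Finset.mul_prod_erase Finset.univ _ (Finset.mem_univ i),
      ← Finset.mul_prod_erase (Finset.univ.erase i) _ (Finset.mem_erase.2
        ⟨hij.symm, Finset.mem_univ j⟩), ← mul_assoc, hee, one_mul] at h1
    rw [Finset.prod_congr rfl (g := fun _ => e τ x) (fun y hy => hsame y
      (Finset.ne_of_mem_erase (Finset.mem_of_mem_erase hy)) (Finset.ne_of_mem_erase hy)),
      Finset.prod_const] at h1
    refine units_odd ?_ h1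
    rw [Finset.card_erase_of_mem (Finset.mem_erase.2 ⟨hij.symm, Finset.mem_univ j⟩),
      Finset.card_erase_of_mem (Finset.mem_univ i), Finset.card_univ]
    obtain ⟨m, hm⟩ := hodd
    rw [hm]
    have hm1 : 1 ≤ m := by
      by_contra h0
      have h0' : m = 0 := by omega
      rw [h0'] at hm
      have := Fintype.card_le_one_iff.1 (le_of_eq hm) i j
      exact hij this
    exact ⟨m - 1, by omega⟩
  intro x
  have step5 : ∀ π : Equiv.Perm {y : Ω // y ≠ x}, ∀ τ, pm τ = Equiv.Perm.ofSubtype π →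
      e τ x = 1 := by
    intro π
    refine Equiv.Perm.swap_induction_on π ?_ ?_
    · intro τ hτ
      rw [map_one] at hτ
      exact step2 τ hτ x
    · intro f a b hab ih τ hτ
      obtain ⟨τ₁, hτ₁⟩ := hpm (Equiv.swap (a : Ω) (b : Ω))
      have h0 : Equiv.Perm.ofSubtype (Equiv.swap a b) = Equiv.swap (a : Ω) (b : Ω) :=
        Equiv.Perm.ofSubtype_swap_eq a b
      have h1 : pm (τ₁⁻¹ * τ) = Equiv.Perm.ofSubtype f := by
        rw [map_mul, map_inv, hτ, map_mul, h0, hτ₁, inv_mul_cancel_left]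
      have h2 := he τ₁ (τ₁⁻¹ * τ) x
      have h3 : Equiv.Perm.ofSubtype f x = x :=
        Equiv.Perm.ofSubtype_apply_of_not_mem f (by simp)
      rw [mul_inv_cancel_left, ih _ h1, one_mul, h1, h3] at h2
      rw [h2]
      exact step4 a b (fun h => hab (Subtype.ext h)) τ₁ hτ₁ x (fun h => a.2 h.symm)
        (fun h => b.2 h.symm)
  intro τ hτ
  refine step5 (Equiv.Perm.subtypePerm (pm τ) ?_) τ ?_
  · intro y
    rw [not_iff_not]
    constructor
    · intro h
      refine (pm τ).injective ?_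
      rw [h, hτ]
    · intro h
      rw [h]
      exact hτ
  · rw [Equiv.Perm.ofSubtype_subtypePerm]
    intro y hy h
    rw [h] at hy
    exact hy hτ

end coc

end Run7.h688.TG
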