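import Pool.Agent.Run7.h784.TG.StmA
import Pool.Agent.Run7.h688.TG.NA

/-!
# Project TG (helper784), pieces NSQ and NSQ2: the roots and the Galois action

by helper688
-/

set_option autoImplicit false
set_option linter.all false

open Polynomial
open scoped Classical

namespace Run7.h688.TG

open Run7.h784.TG

/-! ### The norm `nv` -/

section nv

variable {W : Type} [Field W]

theorem nv_mul (q p₁ p₂ : W[X]) : nv q (p₁ * p₂) = nv q p₁ * nv q p₂ := by
  unfold nv
  rw [map_mul, map_mul]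

theorem nv_one (q : W[X]) : nv q 1 = 1 := by
  unfold nv
  rw [map_one, map_one]

theorem nv_C {q : W[X]} (hq : q.Monic) (c : W) : nv q (C c) = c ^ q.natDegree := by
  unfold nv
  rw [AdjoinRoot.mk_C]
  have h1 := Algebra.norm_algebraMap_of_basis (AdjoinRoot.powerBasis hq.ne_zero).basis c
  rw [Fintype.card_fin, AdjoinRoot.powerBasis_dim] at h1
  exact h1

theorem nv_lin {q : W[X]} (hq : q.Monic) (ρ : W) :
    nv q (X - C ρ) = (-1) ^ q.natDegree * q.eval ρ := by
  obtain ⟨pb, hpb⟩ : ∃ pb, pb = AdjoinRoot.powerBasis hq.ne_zero := ⟨_, rfl⟩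
  have hdim : pb.dim = q.natDegree := by rw [hpb, AdjoinRoot.powerBasis_dim]
  have hgen : pb.gen = AdjoinRoot.root q := by rw [hpb, AdjoinRoot.powerBasis_gen]
  have hmin : minpoly W pb.gen = q := by
    rw [hpb]
    exact AdjoinRoot.minpoly_powerBasis_gen_of_monic hq
  have h1 : AdjoinRoot.mk q (X - C ρ) = pb.gen - algebraMap W _ ρ := by
    rw [map_sub, AdjoinRoot.mk_X, AdjoinRoot.mk_C, hgen]
    rfl
  unfold nv
  rw [h1, Algebra.norm_eq_matrix_det pb.basis, map_sub, AlgHom.commutes]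
  have h2 := Matrix.eval_charpoly (Algebra.leftMulMatrix pb.basis pb.gen) ρ
  rw [charpoly_leftMulMatrix, hmin] at h2
  rw [h2, ← hdim]
  have h3 : Algebra.leftMulMatrix pb.basis pb.gen - algebraMap W _ ρ =
      -(Matrix.scalar (Fin pb.dim) ρ - Algebra.leftMulMatrix pb.basis pb.gen) := by
    rw [neg_sub]
    rfl
  rw [h3, Matrix.det_neg, Fintype.card_fin]

theorem nv_prod [IsAlgClosed W] {q : W[X]} (hq : q.Monic) (p : W[X]) :
    nv q p = (q.roots.map p.eval).prod := by
  have hsq := IsAlgClosed.splits q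
  have hqe : ∀ ρ, q.eval ρ = (q.roots.map fun x => ρ - x).prod := by
    intro ρ
    conv_lhs => rw [hsq.eq_prod_roots_of_monic hq]
    rw [eval_multiset_prod, Multiset.map_map]
    simp
  have hlin : ∀ ρ, nv q (X - C ρ) = (q.roots.map fun x => x - ρ).prod := by
    intro ρ
    rw [nv_lin hq, hqe]
    have h1 : (-1 : W) ^ q.natDegree = (q.roots.map fun _ => (-1 : W)).prod := by
      rw [Multiset.map_const', Multiset.prod_replicate, ← hsq.natDegree_eq_card_roots]
    rw [h1, ← Multiset.prod_map_mul]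
    congr 1
    refine Multiset.map_congr rfl fun x _ => ?_
    ring
  have hsp := IsAlgClosed.splits p
  have key : ∀ (s : Multiset W), nv q (s.map fun ρ => X - C ρ).prod =
      (q.roots.map (s.map fun ρ => X - C ρ).prod.eval).prod := by
    intro s
    induction s using Multiset.induction_on with
    | empty => simp [nv_one]
    | cons a s ih =>
      rw [Multiset.map_cons, Multiset.prod_cons, nv_mul, ih, hlin, ← Multiset.prod_map_mul]
      congr 1
      refine Multiset.map_congr rfl fun x _ => ?_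
      simp
  conv_lhs => rw [hsp.eq_prod_roots]
  rw [nv_mul, nv_C hq, key, hsq.natDegree_eq_card_roots]
  rw [← Multiset.prod_replicate, ← Multiset.map_const', ← Multiset.prod_map_mul]
  congr 1
  refine Multiset.map_congr rfl fun x _ => ?_
  conv_rhs => rw [hsp.eq_prod_roots]
  rw [eval_mul, eval_C]

end nv

/-! ### The roots -/

section roots

variable {k k' K' W : Type} [Field k] [Field k'] [Algebra k k'] [Field K']
  [Algebra k'[X] K'] [Field W] [Algebra K' W]

variable (k' K' W) in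
/-- The roots of `f` in `W`. -/
abbrev Om (f : k[X][X]) : Type := {x : W // eval₂ (big k k' K' W) x f = 0}

variable (K' W) in
/-- The map `k'[X] → W`. -/
noncomputable def psi (k' : Type) [Field k'] [Algebra k'[X] K'] : k'[X] →+* W :=
  (algebraMap K' W).comp (algebraMap k'[X] K')

theorem tau_psi (τ : W ≃ₐ[K'] W) (p : k'[X]) : τ (psi K' W k' p) = psi K' W k' p :=
  τ.commutes _

theorem big_eq (p : k[X]) : big k k' K' W p = psi K' W k' (p.map (algebraMap k k')) := rfl

theorem big_eq' : big k k' K' W = (psi K' W k').comp (mapRingHom (algebraMap k k')) := rfl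

theorem tau_big (τ : W ≃ₐ[K'] W) (p : k[X]) : τ (big k k' K' W p) = big k k' K' W p :=
  τ.commutes _

theorem tau_comp (τ : W ≃ₐ[K'] W) :
    (τ : W →+* W).comp (big k k' K' W) = big k k' K' W :=
  RingHom.ext fun p => tau_big τ p

theorem tau_comp' (τ : W ≃ₐ[K'] W) :
    (τ : W →+* W).comp (psi K' W k') = psi K' W k' :=
  RingHom.ext fun p => tau_psi τ p

theorem tau_eval₂ (τ : W ≃ₐ[K'] W) (x : W) (p : k[X][X]) :
    τ (eval₂ (big k k' K' W) x p) = eval₂ (big k k' K' W) (τ x) p := by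
  have := hom_eval₂ p (big k k' K' W) (τ : W →+* W) x
  rw [tau_comp] at this
  exact this

theorem tau_eval₂' (τ : W ≃ₐ[K'] W) (x : W) (p : k'[X][X]) :
    τ (eval₂ (psi K' W k') x p) = eval₂ (psi K' W k') (τ x) p := by
  have := hom_eval₂ p (psi K' W k') (τ : W →+* W) x
  rw [tau_comp'] at this
  exact this

variable (k' K' W) in
/-- The action on the roots. -/
noncomputable def pm (f : k[X][X]) : (W ≃ₐ[K'] W) →* Equiv.Perm (Om k' K' W f) where
  toFun τ := {
    toFun := fun x => ⟨τ x, by rw [← tau_eval₂, x.2, map_zero]⟩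
    invFun := fun x => ⟨τ.symm x, by rw [← tau_eval₂, x.2, map_zero]⟩
    left_inv := fun x => Subtype.ext (τ.symm_apply_apply _)
    right_inv := fun x => Subtype.ext (τ.apply_symm_apply _) }
  map_one' := rfl
  map_mul' _ _ := rfl

theorem pm_apply {f : k[X][X]} (τ : W ≃ₐ[K'] W) (x : Om k' K' W f) :
    ((pm k' K' W f τ x : Om k' K' W f) : W) = τ x := rfl

/-- `f` has only simple roots in `W`. -/
theorem sep_big {g N : ℕ} {r : k[X]} {f : k[X][X]} (hf : Fm g N r f) {S : Type} [Field S]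
    (φ : k[X] →+* S) (hφ : φ (Pool.Agent.N352.PJ.dsc g f) ≠ 0) : (f.map φ).Separable := by
  have hdeg : (f.map φ).natDegree = 2 * g + 1 := by
    rw [hf.fam.ht.mon.natDegree_map, hf.fam.ht.deg]
  have hder : (derivative (f.map φ)).natDegree ≤ 2 * g := by
    refine (natDegree_derivative_le _).trans ?_
    rw [hdeg]
    omega
  have h1 : (f.map φ).resultant (derivative (f.map φ)) (2 * g + 1) (2 * g) ≠ 0 := by
    rw [derivative_map, resultant_map_map]
    exact hφ
  have h2 : (f.map φ).resultant (derivative (f.map φ)) ≠ 0 := by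
    intro h0
    apply h1
    obtain ⟨j, hj⟩ := Nat.exists_eq_add_of_le hder
    have h5 := resultant_add_right_deg (f.map φ) (derivative (f.map φ)) (2 * g + 1)
      (derivative (f.map φ)).natDegree j le_rfl
    rw [← hj] at h5
    rw [h5, ← hdeg, h0, mul_zero]
  have h3 := mt resultant_eq_zero_iff.2 h2
  rw [not_and, not_not] at h3
  exact h3 (Or.inl (hf.fam.ht.mon.map _).ne_zero)

theorem psi_inj [IsFractionRing k'[X] K'] : Function.Injective (psi K' W k') :=
  (algebraMap K' W).injective.comp (IsFractionRing.injective k'[X] K')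

theorem big_inj [IsFractionRing k'[X] K'] : Function.Injective (big k k' K' W) :=
  psi_inj.comp (Polynomial.map_injective _ (algebraMap k k').injective)

variable [IsAlgClosed W]

/-- A monic polynomial with simple roots among the `x`. -/
theorem prod_filter {f : k[X][X]} [Fintype (Om k' K' W f)] (hm : f.Monic)
    (hs : (f.map (big k k' K' W)).Separable) {q : W[X]} (hq : q.Monic)
    (hd : q ∣ f.map (big k k' K' W)) :
    q = ∏ x ∈ (Finset.univ : Finset (Om k' K' W f)).filter
      (fun x : Om k' K' W f => q.eval (x : W) = 0), (X - C (x : W)) := by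
  have hnd : q.roots.Nodup := nodup_roots (hs.of_dvd hd)
  have h1 : (q.roots.map fun a => X - C a).prod = ∏ a ∈ q.roots.toFinset, (X - C a) := by
    rw [Finset.prod_eq_multiset_prod, Multiset.toFinset_val, Multiset.dedup_eq_self.2 hnd]
  conv_lhs => rw [(IsAlgClosed.splits q).eq_prod_roots_of_monic hq]
  rw [h1]
  symm
  refine Finset.prod_bij (fun (x : Om k' K' W f) _ => (x : W)) ?_ ?_ ?_ ?_
  · intro x hx
    rw [Multiset.mem_toFinset, mem_roots hq.ne_zero]
    exact (Finset.mem_filter.1 hx).2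
  · intro x _ y _ h
    exact Subtype.ext h
  · intro a ha
    rw [Multiset.mem_toFinset, mem_roots hq.ne_zero] at ha
    have h2 : eval₂ (big k k' K' W) a f = 0 := by
      rw [← eval_map]
      obtain ⟨c, hc⟩ := hd
      rw [hc, eval_mul, ha, zero_mul]
    exact ⟨⟨a, h2⟩, Finset.mem_filter.2 ⟨Finset.mem_univ _, ha⟩, rfl⟩
  · intro x _
    rfl

variable [IsAlgClosure K' W]

/-- An element of `W` whose square lies in a subfield and which is fixed by the automorphisms lies in
the subfield. -/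
theorem mem_of_fixed (h2 : (2 : W) ≠ 0) (E : IntermediateField K' W) {β : W}
    (hE : β ^ 2 ∈ E) (h : ∀ τ : W ≃ₐ[K'] W, (∀ x ∈ E, τ x = x) → τ β = β) : β ∈ E := by
  by_contra hβ
  haveI : Normal K' W := IsAlgClosure.normal K' W
  haveI : Normal E W := Normal.tower_top_of_normal K' E W
  have hβ0 : β ≠ 0 := fun h0 => hβ (h0 ▸ zero_mem E)
  obtain ⟨P, hP⟩ : ∃ P : E[X], P = X ^ 2 - C (⟨β ^ 2, hE⟩ : E) := ⟨_, rfl⟩
  have hPm : P.Monic := by
    rw [hP]
    exact monic_X_pow_sub_C _ (by norm_num)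
  have hPd : P.natDegree = 2 := by
    rw [hP]
    exact natDegree_X_pow_sub_C
  have hP0 : aeval β P = 0 := by
    rw [hP]
    simp
  have hP1 : aeval (-β) P = 0 := by
    rw [hP]
    simp
  have hint : IsIntegral E β := ⟨P, hPm, hP0⟩
  have hdvd := minpoly.dvd E β hP0
  have hdeg : 2 ≤ (minpoly E β).natDegree := by
    by_contra hc
    push Not at hc
    have h3 : (minpoly E β).natDegree = 1 := by
      have := minpoly.natDegree_pos hint
      omega
    have h4 := minpoly.mem_range_of_degree_eq_one E β (by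
      rw [degree_eq_natDegree (minpoly.ne_zero hint), h3]
      rfl)
    obtain ⟨e, he⟩ := h4
    exact hβ (he ▸ e.2)
  have heq : minpoly E β = P :=
    (Polynomial.eq_of_monic_of_dvd_of_natDegree_le (minpoly.monic hint) hPm hdvd
      (by rw [hPd]; exact hdeg)).symm
  obtain ⟨σ, hσ⟩ := minpoly.exists_algEquiv_of_root' hint.isAlgebraic
    (show aeval (-β) (minpoly E β) = 0 by rw [heq]; exact hP1)
  have h5 := h (σ.restrictScalars K') (fun x hx => σ.commutes ⟨x, hx⟩)
  have h6 : β = -β := h5.symm.trans hσ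
  have h7 : 2 * β = 0 := by linear_combination h6
  exact (mul_ne_zero h2 hβ0) h7

/-- The same for the field generated by one element, with cleared denominators. -/
theorem exists_num [IsFractionRing k'[X] K'] (h2 : (2 : W) ≠ 0) (x₀ : W) {β : W}
    {P w₀ : k'[X][X]} (hw₀ : eval₂ (psi K' W k') x₀ w₀ ≠ 0)
    (hE : eval₂ (psi K' W k') x₀ w₀ * β ^ 2 = eval₂ (psi K' W k') x₀ P)
    (h : ∀ τ : W ≃ₐ[K'] W, τ x₀ = x₀ → τ β = β) :
    ∃ (u : k'[X][X]) (w : k'[X]), w ≠ 0 ∧ psi K' W k' w * β = eval₂ (psi K' W k') x₀ u := by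
  obtain ⟨E, hEd⟩ : ∃ E, E = IntermediateField.adjoin K' {x₀} := ⟨_, rfl⟩
  have hx₀ : x₀ ∈ E := by
    rw [hEd]
    exact IntermediateField.mem_adjoin_simple_self K' x₀
  have hmem : ∀ Q : k'[X][X], eval₂ (psi K' W k') x₀ Q ∈ E := by
    intro Q
    rw [eval₂_eq_sum_range]
    refine sum_mem fun i _ => mul_mem ?_ (pow_mem hx₀ _)
    exact IntermediateField.algebraMap_mem E _
  have hβ2 : β ^ 2 ∈ E := by
    have : β ^ 2 = (eval₂ (psi K' W k') x₀ w₀)⁻¹ * eval₂ (psi K' W k') x₀ P := by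
      rw [← hE, inv_mul_cancel_left₀ hw₀]
    rw [this]
    exact mul_mem (inv_mem (hmem _)) (hmem _)
  have hβ := mem_of_fixed h2 E hβ2 (fun τ hτ => h τ (hτ x₀ hx₀))
  have halg : IsAlgebraic K' x₀ := (IsAlgClosure.isAlgebraic (R := K')).isAlgebraic x₀
  rw [hEd, ← IntermediateField.mem_toSubalgebra,
    IntermediateField.adjoin_simple_toSubalgebra_of_isAlgebraic halg,
    Algebra.adjoin_singleton_eq_range_aeval] at hβ
  obtain ⟨p, hp⟩ := hβ
  obtain ⟨c, hc⟩ := IsLocalization.integerNormalization_map_to_map (nonZeroDivisors k'[X]) p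
  refine ⟨IsLocalization.integerNormalization (nonZeroDivisors k'[X]) p, c,
    nonZeroDivisors.ne_zero c.2, ?_⟩
  have h3 := congrArg (Polynomial.eval₂ (algebraMap K' W) x₀) hc
  rw [eval₂_map] at h3
  have h4 : (((c : k'[X])) • p) = C (algebraMap k'[X] K' c) * p := by
    rw [algebra_compatible_smul K', smul_eq_C_mul]
  rw [h4, eval₂_mul, eval₂_C] at h3
  have h5 : eval₂ (algebraMap K' W) x₀ p = β := hp
  rw [h5] at h3
  exact h3.symm

omit [IsAlgClosure K' W] in
theorem prod_all {f : k[X][X]} [Fintype (Om k' K' W f)] (hm : f.Monic)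
    (hs : (f.map (big k k' K' W)).Separable) :
    f.map (big k k' K' W) = ∏ x : Om k' K' W f, (X - C (x : W)) := by
  have h := prod_filter hm hs (hm.map _) dvd_rfl
  have h1 : (Finset.univ : Finset (Om k' K' W f)).filter
      (fun x : Om k' K' W f => (f.map (big k k' K' W)).eval (x : W) = 0) = Finset.univ := by
    refine Finset.filter_true_of_mem fun x _ => ?_
    rw [eval_map]
    exact x.2
  rw [h1] at h
  exact h

omit [IsAlgClosure K' W] in
theorem card_Om {f : k[X][X]} [Fintype (Om k' K' W f)] (hm : f.Monic)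
    (hs : (f.map (big k k' K' W)).Separable) :
    Fintype.card (Om k' K' W f) = f.natDegree := by
  have h := congrArg natDegree (prod_all (k' := k') (K' := K') (W := W) hm hs)
  rw [hm.natDegree_map, natDegree_prod_of_monic _ _ (fun x _ => monic_X_sub_C _)] at h
  rw [h]
  simp

omit [IsAlgClosure K' W] in
/-- Transitivity. -/
theorem dvd_of_root [IsFractionRing k'[X] K'] {f : k[X][X]} [Fintype (Om k' K' W f)]
    (hm : f.Monic) (hs : (f.map (big k k' K' W)).Separable)
    (hF : Function.Surjective (pm k' K' W f)) (x₀ : Om k' K' W f) {P : k'[X][X]}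
    (hP : eval₂ (psi K' W k') (x₀ : W) P = 0) :
    f.map (mapRingHom (algebraMap k k')) ∣ P := by
  have hall : ∀ x : Om k' K' W f, eval₂ (psi K' W k') (x : W) P = 0 := by
    intro x
    obtain ⟨τ, hτ⟩ := hF (Equiv.swap x₀ x)
    have h1 : (τ (x₀ : W)) = x := by
      rw [← pm_apply, hτ, Equiv.swap_apply_left]
    rw [← h1, ← tau_eval₂', hP, map_zero]
  rw [← Polynomial.map_dvd_map (psi K' W k') psi_inj (hm.map _), Polynomial.map_map,
    ← big_eq', prod_all hm hs]
  refine Finset.prod_dvd_of_coprime ?_ ?_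
  · intro x _ y _ hxy
    exact Polynomial.pairwise_coprime_X_sub_C (s := fun x : Om k' K' W f => (x : W))
      Subtype.val_injective hxy
  · intro x _
    rw [dvd_iff_isRoot, IsRoot.def, eval_map]
    exact hall x

omit [IsAlgClosed W] [IsAlgClosure K' W] in
theorem mdl_map {l : ℕ} (c : Fin l → ℕ) (D : k[X]) (A : Fin l → ℕ → k[X][X]) (y : W)
    (τ : W ≃ₐ[K'] W) (i : Fin l) :
    mdl (big k k' K' W) c D A (τ y) i = (mdl (big k k' K' W) c D A y i).map (τ : W →+* W) := by
  unfold mdl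
  rw [Polynomial.map_add, Polynomial.map_pow, map_X, Polynomial.map_sum]
  congr 1
  refine Finset.sum_congr rfl fun j _ => ?_
  rw [Polynomial.map_mul, Polynomial.map_pow, map_X, map_C]
  congr 2
  change _ = τ _
  rw [map_div₀, tau_big, tau_eval₂]

omit [IsAlgClosure K' W] in
/-- The point `y` of the model is fixed by the automorphisms which preserve the colouring. -/
theorem fixY {f : k[X][X]} [Fintype (Om k' K' W f)] (hm : f.Monic)
    (hs : (f.map (big k k' K' W)).Separable) {l : ℕ} {c : Fin l → ℕ} {D : k[X]}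
    {A : Fin l → ℕ → k[X][X]} {H : k[X][X]}
    (hb : Set.BijOn (mdl (big k k' K' W) c D A) {y | eval₂ (big k k' K' W) y H = 0}
      (FacR (big k k' K' W) f c)) {y : W} (hy : eval₂ (big k k' K' W) y H = 0)
    (τ : W ≃ₐ[K'] W) (hτ : ∀ (i : Fin l) (x : Om k' K' W f),
      (mdl (big k k' K' W) c D A y i).eval (x : W) = 0 →
      (mdl (big k k' K' W) c D A y i).eval (pm k' K' W f τ x : W) = 0) : τ y = y := by
  have hty : eval₂ (big k k' K' W) (τ y) H = 0 := by
    rw [← tau_eval₂, hy, map_zero]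
  refine hb.injOn hty hy ?_
  funext i
  rw [mdl_map]
  have hfac := hb.mapsTo hy
  have hdvd : mdl (big k k' K' W) c D A y i ∣ f.map (big k k' K' W) := by
    rw [← hfac.2]
    exact Finset.dvd_prod_of_mem _ (Finset.mem_univ i)
  have h1 := prod_filter hm hs (hfac.1 i).1 hdvd
  obtain ⟨S, hS⟩ : ∃ S, S = (Finset.univ : Finset (Om k' K' W f)).filter
    (fun x : Om k' K' W f => (mdl (big k k' K' W) c D A y i).eval (x : W) = 0) := ⟨_, rfl⟩
  rw [← hS] at h1
  have hmap : S.map (pm k' K' W f τ).toEmbedding = S := by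
    refine Finset.eq_of_subset_of_card_le ?_ (by rw [Finset.card_map])
    intro x hx
    rw [Finset.mem_map] at hx
    obtain ⟨x', hx', rfl⟩ := hx
    rw [hS, Finset.mem_filter] at hx' ⊢
    exact ⟨Finset.mem_univ _, hτ i x' hx'.2⟩
  rw [h1, Polynomial.map_prod]
  conv_rhs => rw [← hmap, Finset.prod_map]
  refine Finset.prod_congr rfl fun x _ => ?_
  rw [Polynomial.map_sub, map_X, map_C]
  rfl

/-! ### Signs -/

omit [IsAlgClosed W] [IsAlgClosure K' W] in
theorem unit_cancel (h2 : (2 : W) ≠ 0) {e e' : ℤˣ} {b : W} (hb : b ≠ 0)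
    (h : ((e : ℤ) : W) * b = ((e' : ℤ) : W) * b) : e = e' := by
  have h1 := mul_right_cancel₀ hb h
  rcases Int.units_eq_one_or e with rfl | rfl <;> rcases Int.units_eq_one_or e' with rfl | rfl
  · rfl
  · exfalso
    apply h2
    push_cast at h1
    linear_combination h1
  · exfalso
    apply h2
    push_cast at h1
    linear_combination -h1
  · rfl

omit [IsAlgClosed W] [IsAlgClosure K' W] in
theorem exists_sign (τ : W ≃ₐ[K'] W) {b b' : W} (h : τ b ^ 2 = b' ^ 2) :
    ∃ e : ℤˣ, τ b = ((e : ℤ) : W) * b' := by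
  rcases sq_eq_sq_iff_eq_or_eq_neg.1 h with h1 | h1
  · exact ⟨1, by rw [h1]; push_cast; ring⟩
  · exact ⟨-1, by rw [h1]; push_cast; ring⟩

omit [IsAlgClosed W] [IsAlgClosure K' W] in
theorem fixed_of (h2 : (2 : W) ≠ 0) {f : k[X][X]} [Fintype (Om k' K' W f)]
    (hF : Function.Surjective (pm k' K' W f)) (hodd : Odd (Fintype.card (Om k' K' W f)))
    {β : Om k' K' W f → W} (hβ0 : ∀ x, β x ≠ 0)
    (hβ : ∀ τ x, τ (β x) ^ 2 = β (pm k' K' W f τ x) ^ 2)
    (hprod : ∀ τ : W ≃ₐ[K'] W, τ (∏ x, β x) = ∏ x, β x)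
    {s : Finset (Om k' K' W f)} (hs : s.Nonempty) (hs' : ∃ j, j ∉ s) {β₀ : W} (h0 : β₀ ≠ 0)
    (hβ₀ : ∀ τ : W ≃ₐ[K'] W, τ β₀ ^ 2 = β₀ ^ 2)
    (hγ : ∀ τ, pm k' K' W f τ = 1 → τ (β₀ * ∏ x ∈ s, β x) = β₀ * ∏ x ∈ s, β x) :
    ∀ x τ, pm k' K' W f τ x = x → τ (β x) = β x := by
  choose e he using fun (τ : W ≃ₐ[K'] W) (x : Om k' K' W f) => exists_sign τ (hβ τ x)
  choose e₀ he₀ using fun (τ : W ≃ₐ[K'] W) => exists_sign τ (hβ₀ τ)
  have hcast : ∀ u : ℤˣ, ∀ τ : W ≃ₐ[K'] W, τ ((u : ℤ) : W) = ((u : ℤ) : W) := by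
    intro u τ
    exact map_intCast τ _
  have hco := cocyc (pm k' K' W f) hF (e := e) (e₀ := e₀) (s := s) ?_ ?_ hodd hs hs' ?_ ?_
  · intro x τ hx
    rw [he τ x, hco x τ hx, hx]
    push_cast
    ring
  · intro τ ρ x
    refine unit_cancel h2 (hβ0 (pm k' K' W f τ (pm k' K' W f ρ x))) ?_
    have h1 := he (τ * ρ) x
    rw [AlgEquiv.mul_apply, he ρ x, map_mul, hcast, he τ, map_mul, Equiv.Perm.mul_apply] at h1
    rw [← h1]
    push_cast
    ring
  · intro τ
    have h1 := hprod τ
    rw [map_prod, Finset.prod_congr rfl fun x _ => he τ x, Finset.prod_mul_distrib,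
      Equiv.prod_comp (pm k' K' W f τ) β] at h1
    refine unit_cancel h2 (Finset.prod_ne_zero_iff.2 fun x (_ : x ∈ Finset.univ) => hβ0 x) ?_
    rw [Units.coe_prod]
    push_cast
    rw [one_mul]
    exact h1
  · intro τ ρ
    refine unit_cancel h2 h0 ?_
    have h1 := he₀ (τ * ρ)
    rw [AlgEquiv.mul_apply, he₀ ρ, map_mul, hcast, he₀ τ] at h1
    rw [← h1]
    push_cast
    ring
  · intro τ hτ
    have h1 := hγ τ hτ
    rw [map_mul, map_prod, Finset.prod_congr rfl fun x _ => he τ x, Finset.prod_mul_distrib,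
      he₀ τ, hτ] at h1
    simp only [Equiv.Perm.one_apply] at h1
    refine unit_cancel h2 (mul_ne_zero h0 (Finset.prod_ne_zero_iff.2 fun x (_ : x ∈ s) => hβ0 x)) ?_
    rw [Units.val_mul, Units.coe_prod]
    push_cast
    rw [one_mul]
    linear_combination h1

end roots

end Run7.h688.TG
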