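import Pool.Agent.Run7.h688.TG.NB
import Pool.Agent.Run7.h333.TS.NsqB
import Pool.Agent.N769.PJ.Int

/-!
# Project TG (helper784), piece NSQ: norms and descent

by helper688 (the descent is adapted from Run7/h333/TS/NsqB of helper333)
-/

set_option autoImplicit false
set_option linter.all false

open Polynomial
open scoped Classical

namespace Run7.h688.TG

open Run7.h784.TG
open Pool.Agent.N352.PJ (IsGen Crd dsc)
open Run7.h333.TS (Fr Fr2 ex Fr2_ex Fr2_fixed exists_sqrt exists_dvd_map)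

/-- The polynomial with the coefficients `z i`. -/
noncomputable def zq {k : Type} [Field k] {m : ℕ} (z : Fin m → k[X]) : k[X][X] :=
  ∑ i, C (z i) * X ^ (i : ℕ)

theorem zp_eq {k W : Type} [Field k] [Field W] (φ : k[X] →+* W) {m : ℕ} (z : Fin m → k[X]) :
    zp φ z = (zq z).map φ := by
  unfold zp zq
  rw [Polynomial.map_sum]
  refine Finset.sum_congr rfl fun i _ => ?_
  rw [Polynomial.map_mul, Polynomial.map_pow, map_X, map_C]

theorem zq_deg {k : Type} [Field k] {m : ℕ} (z : Fin (m + 1) → k[X]) : (zq z).natDegree ≤ m := by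
  unfold zq
  refine natDegree_sum_le_of_forall_le _ _ fun i _ => ?_
  refine (natDegree_C_mul_X_pow_le _ _).trans ?_
  have := i.2
  omega

theorem nrm_big {k K L : Type} [Field k] [Field K] [Algebra k[X] K] [IsFractionRing k[X] K]
    [Field L] [Algebra K L] [Algebra k[X] L] [IsScalarTower k[X] K L] {g : ℕ} {f : k[X][X]}
    {θ : L} (hθ : IsGen g K f θ) (hd : dsc g f ≠ 0) {α : L} {z : Fin (2 * g + 1) → k[X]}
    (hz : Crd g θ z α) : ∃ nα : k[X], algebraMap k[X] K nα = Algebra.norm K α ∧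
      ∀ (W : Type) [Field W] [IsAlgClosed W] (φ : k[X] →+* W),
        φ nα = ((f.map φ).roots.map (zp φ z).eval).prod := by
  refine ⟨f.resultant (zq z) (2 * g + 1) (2 * g), ?_, ?_⟩
  · have h1 := Pool.Agent.N769.PJ.nrm hθ hd ((zq z).map (algebraMap k[X] K)) (2 * g)
      (natDegree_map_le.trans (zq_deg z))
    have h2 : aeval θ ((zq z).map (algebraMap k[X] K)) = α := by
      rw [hz]
      unfold zq
      rw [Polynomial.map_sum, map_sum]
      refine Finset.sum_congr rfl fun i _ => ?_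
      rw [Polynomial.map_mul, Polynomial.map_pow, map_X, map_C, map_mul, map_pow, aeval_X, aeval_C,
        ← IsScalarTower.algebraMap_apply]
    rw [h2, resultant_map_map] at h1
    exact h1.symm
  · intro W _ _ φ
    rw [← resultant_map_map, zp_eq]
    have hdeg : (f.map φ).natDegree = 2 * g + 1 := by
      rw [hθ.mon.natDegree_map, hθ.deg]
    have h3 := resultant_eq_prod_eval (f.map φ) ((zq z).map φ) (2 * g)
      (natDegree_map_le.trans (zq_deg z)) (IsAlgClosed.splits _)
    rw [hdeg, (hθ.mon.map φ).leadingCoeff, one_pow, one_mul] at h3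
    exact h3

/-- Descent of squares modulo `F`. -/
theorem gsq_desc {k k' : Type} [Field k] [Fintype k] [Field k'] [Algebra k k'] [IsAlgClosed k']
    [Algebra.IsAlgebraic k k'] (h2 : (2 : k) ≠ 0) {F : k[X][X]} (hFm : F.Monic)
    (hI : ∀ P Q : k'[X][X], ex k k' F ∣ P * Q → ex k k' F ∣ P ∨ ex k k' F ∣ Q) {h : k[X][X]}
    (hG : Run7.h875.TS.GSq k' F h) :
    ∃ (c : k) (W : k[X]) (U : k[X][X]), c ≠ 0 ∧ W ≠ 0 ∧ F ∣ C (C c * W ^ 2) * h - U ^ 2 := by
  obtain ⟨u, w, hw, hu⟩ := hG
  obtain ⟨W, hW, w', hw'⟩ := exists_dvd_map (k := k) hw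
  obtain ⟨F', hF'⟩ : ∃ F', F' = ex k k' F := ⟨_, rfl⟩
  have hF'm : F'.Monic := by
    rw [hF']
    exact hFm.map _
  rw [← hF'] at hI
  have hu' : F' ∣ C (w ^ 2) * ex k k' h - u ^ 2 := by
    rw [hF']
    exact hu
  obtain ⟨v, hv⟩ : ∃ v, v = (C w' * u) %ₘ F' := ⟨_, rfl⟩
  have hv1 : F' ∣ ex k k' (C (W ^ 2) * h) - v ^ 2 := by
    have e1 : F' ∣ C w' * u - v := ⟨(C w' * u) /ₘ F', by
      have := modByMonic_add_div (C w' * u) F'
      rw [← hv] at this
      linear_combination - this⟩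
    have e2 : F' ∣ (C w' * u) ^ 2 - v ^ 2 := by
      rw [sq_sub_sq]
      exact e1.mul_left _
    have e3 : F' ∣ C (w' ^ 2) * (C (w ^ 2) * ex k k' h - u ^ 2) := Dvd.dvd.mul_left hu' _
    have e4 : ex k k' (C (W ^ 2) * h) = C (w' ^ 2) * (C (w ^ 2) * ex k k' h) := by
      rw [map_mul, ← mul_assoc, ← C_mul]
      congr 1
      rw [ex, coe_mapRingHom, map_C]
      congr 1
      rw [map_pow, coe_mapRingHom, hw']
      ring
    have e5 : ex k k' (C (W ^ 2) * h) - v ^ 2 =
        C (w' ^ 2) * (C (w ^ 2) * ex k k' h - u ^ 2) + ((C w' * u) ^ 2 - v ^ 2) := by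
      rw [e4, C_pow]
      ring
    rw [e5]
    exact dvd_add e3 e2
  have hv2 : F' ∣ ex k k' (C (W ^ 2) * h) - Fr2 k k' v ^ 2 := by
    have := map_dvd (Fr2 k k') hv1
    rw [hF', map_sub, Fr2_ex, Fr2_ex, map_pow (Fr2 k k'), ← hF'] at this
    exact this
  have hv3 : F' ∣ (Fr2 k k' v + v) * (Fr2 k k' v - v) := by
    have := dvd_sub hv1 hv2
    have e : (Fr2 k k' v + v) * (Fr2 k k' v - v) =
      (ex k k' (C (W ^ 2) * h) - v ^ 2) - (ex k k' (C (W ^ 2) * h) - Fr2 k k' v ^ 2) := by ring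
    rw [e]
    exact this
  have hd : v.degree < F'.degree := by
    rw [hv]
    exact degree_modByMonic_lt _ hF'm
  have hd' : (Fr2 k k' v).degree < F'.degree := by
    refine lt_of_le_of_lt ?_ hd
    rw [Fr2, coe_mapRingHom]
    exact degree_map_le
  rcases hI _ _ hv3 with h3 | h3
  · have h4 : Fr2 k k' v = - v := by
      have : Fr2 k k' v + v = 0 := by
        by_contra h0
        have := degree_le_of_dvd h3 h0
        exact absurd (lt_of_le_of_lt (degree_add_le _ _) (max_lt hd' hd)) (not_lt.2 this)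
      linear_combination this
    obtain ⟨c, s, hc, hs, hs'⟩ := exists_sqrt (k := k) (k' := k') h2
    have h5 : Fr2 k k' (C (C s) * v) = C (C s) * v := by
      have e7 : Fr2 k k' (C (C s)) = - C (C s) := by
        rw [Fr2, coe_mapRingHom, map_C, Fr, coe_mapRingHom, map_C]
        have : (FiniteField.frobeniusAlgHom k k').toRingHom s = - s := hs'
        rw [this]
        simp
      rw [map_mul]
      linear_combination e7 * Fr2 k k' v - C (C s) * h4
    obtain ⟨U, hU⟩ := Fr2_fixed h5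
    refine ⟨c, W, U, hc, hW, ?_⟩
    rw [← map_dvd_map (mapRingHom (algebraMap k k'))
      (Polynomial.map_injective _ (algebraMap k k').injective) hFm]
    change ex k k' F ∣ ex k k' _
    rw [map_sub, map_pow, hU, ← hF', C_mul, mul_assoc, map_mul (ex k k')]
    have e6 : ex k k' (C (C c)) = C (C s) ^ 2 := by
      rw [ex, coe_mapRingHom, map_C, coe_mapRingHom, map_C, ← hs]
      simp
    rw [e6, mul_pow, ← mul_sub]
    exact hv1.mul_left _
  · have h4 : Fr2 k k' v = v := by
      have : Fr2 k k' v - v = 0 := by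
        by_contra h0
        have := degree_le_of_dvd h3 h0
        exact absurd (lt_of_le_of_lt (degree_sub_le _ _) (max_lt hd' hd)) (not_lt.2 this)
      linear_combination this
    obtain ⟨U, hU⟩ := Fr2_fixed h4
    refine ⟨1, W, U, one_ne_zero, hW, ?_⟩
    rw [← map_dvd_map (mapRingHom (algebraMap k k'))
      (Polynomial.map_injective _ (algebraMap k k').injective) hFm]
    change ex k k' F ∣ ex k k' _
    rw [map_sub, map_pow, hU, ← hF', C_1, one_mul]
    exact hv1

section core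

variable {k k' K' W : Type} [Field k] [Field k'] [Algebra k k'] [Field K']
  [Algebra k'[X] K'] [IsFractionRing k'[X] K'] [Field W] [Algebra K' W] [IsAlgClosed W]
  [IsAlgClosure K' W]

omit [IsFractionRing k'[X] K'] [IsAlgClosed W] [IsAlgClosure K' W] in
theorem finite_Om {f : k[X][X]} (hm : f.Monic) : Finite (Om k' K' W f) := by
  have h1 : ({x : W | eval₂ (big k k' K' W) x f = 0} : Set W).Finite := by
    refine Set.Finite.subset (f.map (big k k' K' W)).roots.toFinset.finite_toSet ?_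
    intro x hx
    rw [Finset.mem_coe, Multiset.mem_toFinset, mem_roots (hm.map _).ne_zero, IsRoot.def, eval_map]
    exact hx
  exact h1.to_subtype

theorem nsq_core {g N : ℕ} {r : k[X]} {f : k[X][X]} (hf : Fm g N r f)
    (hF : Function.Surjective (pm k' K' W f)) {l : ℕ} {c : Fin l → ℕ} (hc : ∀ i, 1 ≤ c i)
    (hsum : ∑ i, c i = 2 * g + 1) {H : k[X][X]} {D : k[X]} {A : Fin l → ℕ → k[X][X]}
    (hMd : IsMd f c H D A) {B : Finset (Fin l)} (hB : B.Nonempty) (hBe : Even (∑ i ∈ B, c i))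
    {z : Fin (2 * g + 1) → k[X]} {nα p q b : k[X]}
    (hn : ∀ φ : k[X] →+* W, φ nα = ((f.map φ).roots.map (zp φ z).eval).prod) (hn0 : nα ≠ 0)
    (hq : q ≠ 0) (hpq : q ^ 2 * nα = p ^ 2) (hb : b ≠ 0) {G : k[X][X]} {e : ℕ}
    (hG : ∀ (φ : k[X] →+* W) (y : W), φ D ≠ 0 → eval₂ φ y H = 0 →
      eval₂ φ y G = φ b * φ D ^ (2 * e) * nv (∏ i ∈ B, mdl φ c D A y i) (zp φ z))
    (hGS : Run7.h875.TS.GSq k' H G) :
    Run7.h875.TS.GSq k' f (zq z) ∧
    ∀ P Q : k'[X][X], ex k k' f ∣ P * Q → ex k k' f ∣ P ∨ ex k k' f ∣ Q := by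
  obtain ⟨u, w, hw, hu⟩ := hGS
  have hφi : Function.Injective (big k k' K' W) := big_inj
  have hψi : Function.Injective (psi K' W k') := psi_inj
  have h2k : (2 : k) ≠ 0 := hf.two
  have h2 : (2 : W) ≠ 0 := by
    have : (big k k' K' W) (C 2) ≠ 0 := by
      rw [Ne, map_eq_zero_iff _ hφi, C_eq_zero]
      exact h2k
    rwa [show (C (2 : k) : k[X]) = 2 from rfl, map_ofNat] at this
  have hd0 : (big k k' K' W) (dsc g f) ≠ 0 := by
    rw [Ne, map_eq_zero_iff _ hφi]
    exact hf.fam.sq.ne_zero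
  have hm : f.Monic := hf.fam.ht.mon
  have hdeg : f.natDegree = 2 * g + 1 := hf.fam.ht.deg
  have hs : (f.map (big k k' K' W)).Separable := sep_big hf _ hd0
  haveI : Finite (Om k' K' W f) := finite_Om hm
  letI : Fintype (Om k' K' W f) := Fintype.ofFinite _
  have hcard : Fintype.card (Om k' K' W f) = 2 * g + 1 := by rw [card_Om hm hs, hdeg]
  have hodd : Odd (Fintype.card (Om k' K' W f)) := by
    rw [hcard]
    exact ⟨g, rfl⟩
  -- a point of the model
  obtain ⟨y, hy⟩ : ∃ y, eval₂ (big k k' K' W) y H = 0 := by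
    obtain ⟨y, hy⟩ := IsAlgClosed.exists_root (H.map (big k k' K' W)) (by
      rw [hMd.pc.monic.degree_map, degree_eq_natDegree hMd.pc.monic.ne_zero]
      exact_mod_cast hMd.pc.pos.ne')
    exact ⟨y, by rw [← eval_map]; exact hy⟩
  have hD : (big k k' K' W) D ≠ 0 := by
    rw [Ne, map_eq_zero_iff _ hφi]
    exact hMd.pc.ne
  have hbij := hMd.bij W (big k k' K' W) hD
  have hfac := hbij.mapsTo hy
  obtain ⟨qq, hqq⟩ : ∃ qq, qq = ∏ i ∈ B, mdl (big k k' K' W) c D A y i := ⟨_, rfl⟩
  have hqm : qq.Monic := by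
    rw [hqq]
    exact monic_prod_of_monic _ _ fun i _ => (hfac.1 i).1
  have hqdeg : qq.natDegree = ∑ i ∈ B, c i := by
    rw [hqq, natDegree_prod_of_monic _ _ fun i _ => (hfac.1 i).1]
    exact Finset.sum_congr rfl fun i _ => (hfac.1 i).2
  have hqd : qq ∣ f.map (big k k' K' W) := by
    rw [← hfac.2, hqq]
    exact Finset.prod_dvd_prod_of_subset _ _ _ (Finset.subset_univ _)
  have hqp := prod_filter hm hs hqm hqd
  obtain ⟨s, hsd⟩ : ∃ s, s = (Finset.univ : Finset (Om k' K' W f)).filter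
    (fun x : Om k' K' W f => qq.eval (x : W) = 0) := ⟨_, rfl⟩
  rw [← hsd] at hqp
  have hscard : s.card = ∑ i ∈ B, c i := by
    rw [← hqdeg, hqp, natDegree_prod_of_monic _ _ (fun x _ => monic_X_sub_C _)]
    simp
  have hsne : s.Nonempty := by
    rw [← Finset.card_pos, hscard]
    obtain ⟨i, hi⟩ := hB
    exact lt_of_lt_of_le (Nat.lt_of_lt_of_le one_pos (hc i)) (Finset.single_le_sum
      (f := c) (fun _ _ => Nat.zero_le _) hi)
  have hsne' : ∃ j, j ∉ s := by
    by_contra hcon
    push Not at hcon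
    have : s = Finset.univ := Finset.eq_univ_iff_forall.2 hcon
    rw [this, Finset.card_univ] at hscard
    rw [← hscard] at hBe
    exact (Nat.not_even_iff_odd.2 hodd) hBe
  -- the values
  obtain ⟨av, hav⟩ : ∃ av : Om k' K' W f → W, av = fun x : Om k' K' W f => (zp (big k k' K' W) z).eval (x : W) := ⟨_, rfl⟩
  have hroots : (f.map (big k k' K' W)).roots = (Finset.univ : Finset (Om k' K' W f)).val.map
      (fun x : Om k' K' W f => (x : W)) := by
    have h1 := prod_all (k' := k') (K' := K') (W := W) hm hs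
    rw [h1, Finset.prod_eq_multiset_prod]
    exact (by
      have := roots_multiset_prod_X_sub_C ((Finset.univ : Finset (Om k' K' W f)).val.map
        (fun x : Om k' K' W f => (x : W)))
      rw [Multiset.map_map] at this
      exact this)
  have hprodav : (big k k' K' W) nα = ∏ x, av x := by
    rw [hn (big k k' K' W), hroots, Multiset.map_map, Finset.prod_eq_multiset_prod, hav]
    rfl
  have hav0 : ∀ x, av x ≠ 0 := by
    have h1 : ∏ x, av x ≠ 0 := by
      rw [← hprodav, Ne, map_eq_zero_iff _ hφi]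
      exact hn0
    intro x
    exact (Finset.prod_ne_zero_iff.1 h1) x (Finset.mem_univ x)
  have havτ : ∀ (τ : W ≃ₐ[K'] W) x, τ (av x) = av (pm k' K' W f τ x) := by
    intro τ x
    rw [hav]
    simp only
    rw [zp_eq, eval_map, eval_map, tau_eval₂, pm_apply]
  choose β hβ using fun x : Om k' K' W f => IsAlgClosed.exists_pow_nat_eq (av x) (n := 2) two_pos
  obtain ⟨β₀, hβ₀⟩ := IsAlgClosed.exists_pow_nat_eq ((big k k' K' W) b) (n := 2) two_pos
  have hβ0 : ∀ x, β x ≠ 0 := by
    intro x h0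
    apply hav0 x
    rw [← hβ x, h0]
    ring
  have hb0 : (big k k' K' W) b ≠ 0 := by
    rw [Ne, map_eq_zero_iff _ hφi]
    exact hb
  have hβ₀0 : β₀ ≠ 0 := by
    intro h0
    apply hb0
    rw [← hβ₀, h0]
    ring
  have hnv : nv qq (zp (big k k' K' W) z) = ∏ x ∈ s, av x := by
    rw [nv_prod hqm]
    have h1 : qq.roots = s.val.map (fun x : Om k' K' W f => (x : W)) := by
      conv_lhs => rw [hqp, Finset.prod_eq_multiset_prod]
      have := roots_multiset_prod_X_sub_C (s.val.map (fun x : Om k' K' W f => (x : W)))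
      rw [Multiset.map_map] at this
      exact this
    rw [h1, Multiset.map_map, Finset.prod_eq_multiset_prod, hav]
    rfl
  have hfix := fixed_of h2 hF hodd hβ0 (fun τ x => by
      rw [← map_pow, hβ, havτ, hβ]) (fun τ => by
      have h1 : ((big k k' K' W) q * ∏ x, β x) ^ 2 = ((big k k' K' W) p) ^ 2 := by
        rw [mul_pow, ← Finset.prod_pow, Finset.prod_congr rfl fun x _ => hβ x, ← hprodav,
          ← map_pow, ← map_mul, hpq, map_pow]
      have hφq : (big k k' K' W) q ≠ 0 := by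
        rw [Ne, map_eq_zero_iff _ hφi]
        exact hq
      have hτφ : ∀ a : k[X], τ ((big k k' K' W) a) = (big k k' K' W) a := by
        intro a
        exact tau_big τ a
      have h3 : τ ((big k k' K' W) q * ∏ x, β x) = (big k k' K' W) q * ∏ x, β x := by
        rcases sq_eq_sq_iff_eq_or_eq_neg.1 h1 with h | h
        · rw [h, hτφ]
        · rw [h, map_neg, hτφ]
      rw [map_mul, hτφ] at h3
      exact mul_left_cancel₀ hφq h3) hsne hsne' hβ₀0 (fun τ => by
      rw [← map_pow, hβ₀, tau_big]) (fun τ hτ => by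
      have hτφ : ∀ a : k[X], τ ((big k k' K' W) a) = (big k k' K' W) a := by
        intro a
        exact tau_big τ a
      have hτy : τ y = y := by
        refine fixY hm hs hbij hy τ fun i x hx => ?_
        rw [hτ]
        exact hx
      have h1 : (psi K' W k' w * (big k k' K' W) D ^ e * (β₀ * ∏ x ∈ s, β x)) ^ 2 =
          (eval₂ (psi K' W k') y u) ^ 2 := by
        have h3 : eval₂ (psi K' W k') y (C (w ^ 2) * G.map (mapRingHom (algebraMap k k')) - u ^ 2) =
            0 := by
          obtain ⟨V, hV⟩ := hu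
          rw [hV, eval₂_mul, eval₂_map, ← big_eq', hy, zero_mul]
        rw [eval₂_sub, eval₂_mul, eval₂_C, eval₂_map, ← big_eq', hG _ y hD hy, ← hqq, hnv,
          eval₂_pow, map_pow] at h3
        rw [mul_pow, mul_pow, mul_pow, hβ₀, ← Finset.prod_pow,
          Finset.prod_congr rfl fun x _ => hβ x, ← pow_mul, mul_comm e 2]
        linear_combination h3
      have hne : psi K' W k' w * (big k k' K' W) D ^ e ≠ 0 := by
        refine mul_ne_zero ?_ (pow_ne_zero _ hD)
        rw [Ne, map_eq_zero_iff _ hψi]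
        exact hw
      have h4 : τ (psi K' W k' w * (big k k' K' W) D ^ e * (β₀ * ∏ x ∈ s, β x)) =
          psi K' W k' w * (big k k' K' W) D ^ e * (β₀ * ∏ x ∈ s, β x) := by
        rcases sq_eq_sq_iff_eq_or_eq_neg.1 h1 with h | h
        · rw [h, tau_eval₂', hτy]
        · rw [h, map_neg, tau_eval₂', hτy]
      rw [map_mul, map_mul, tau_psi, map_pow, hτφ] at h4
      exact mul_left_cancel₀ hne h4)
  -- a root
  have hΩ : Nonempty (Om k' K' W f) := by
    rw [← Fintype.card_pos_iff, hcard]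
    omega
  obtain ⟨x₀⟩ := hΩ
  refine ⟨?_, ?_⟩
  · obtain ⟨u₁, w₁, hw₁, hu₁⟩ := exists_num (k' := k') h2 (x₀ : W) (β := β x₀)
      (P := (zq z).map (mapRingHom (algebraMap k k'))) (w₀ := 1) (by
        rw [eval₂_one]
        exact one_ne_zero) (by
        rw [eval₂_one, one_mul, hβ, eval₂_map, ← big_eq', hav]
        simp only
        rw [zp_eq, eval_map]) (fun τ hτ => hfix x₀ τ (Subtype.ext hτ))
    refine ⟨u₁, w₁, hw₁, ?_⟩
    refine dvd_of_root hm hs hF x₀ ?_
    rw [eval₂_sub, eval₂_mul, eval₂_C, eval₂_pow, ← hu₁, map_pow, mul_pow, hβ, eval₂_map,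
      ← big_eq', hav]
    simp only
    rw [zp_eq, eval_map]
    ring
  · intro P Q hPQ
    have h1 : eval₂ (psi K' W k') (x₀ : W) P * eval₂ (psi K' W k') (x₀ : W) Q = 0 := by
      rw [← eval₂_mul]
      obtain ⟨V, hV⟩ := hPQ
      rw [hV, eval₂_mul]
      have h3 : eval₂ (psi K' W k') (x₀ : W) (ex k k' f) = 0 := by
        rw [ex, coe_mapRingHom, eval₂_map, ← big_eq']
        exact x₀.2
      rw [h3, zero_mul]
    rcases mul_eq_zero.1 h1 with h | h
    · exact Or.inl (dvd_of_root hm hs hF x₀ h)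
    · exact Or.inr (dvd_of_root hm hs hF x₀ h)

end core

end Run7.h688.TG
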